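import Pool.Agent.Lib.MP_1ad228_ntE.Defs
import Pool.Agent.Lib.MP_1ad228_ntE.EFin
import Pool.Agent.Lib.MP_1ad228_ntBr.E
import Pool.Agent.Lib.MP_1ad228_ntBr.EDM

/-!
# MP_1ad228_nt: zero-cycles on Enriques surfaces (Horikawa's model) and similar surfaces of Kodaira dimension one and two
-/

set_option autoImplicit false

namespace Pool.Agent.Results.MP_1ad228_nt.EnriquesSurfaces

open HNE

theorem result (m n K : ℕ) (hm : 1 ≤ m) (hn : 1 ≤ n) (hK : m + n + 3 ≤ K) :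
    (∃ C : ℝ, ∀ N : ℕ, 16 ≤ N →
      (Nat.card {q : Dt m n // InBox (N ^ K) N q ∧ (Adelic q ∨ Global q)} : ℝ) ≤
        C * (N : ℝ) ^ ((8 * m * n + 2 * m + 2 * n + 1) * K + 6) / Real.log (Real.log N)) ∧
    (∃ c : ℝ, 0 < c ∧ ∃ N₀ : ℕ, ∀ N : ℕ, N₀ ≤ N → c * (N : ℝ) ^ ((8 * m * n + 2 * m + 2 * n + 1) * K + 6) ≤
      (Nat.card {q : Dt m n // InBox (N ^ K) N q ∧ Smooth q ∧ HasPoint ℝ q ∧
        ∀ (p : ℕ) [Fact p.Prime], HasPoint ℚ_[p] q} : ℝ)) ∧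
    (∀ q : Dt m n, Smooth q → InBr q) ∧ IsDense m n :=
  ⟨(cyc_E m n K hm hn hK).1, (cyc_E m n K hm hn hK).2, fun _ hq => inBr hm hn hq, isDense hm hn⟩

end Pool.Agent.Results.MP_1ad228_nt.EnriquesSurfaces
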