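import Pool.Agent.Lib.MP_1ad228_ntTS.Main
import Pool.Agent.Lib.MP_1ad228_ntBr.TS
import Pool.Agent.Lib.MP_1ad228_ntBr.TSE
import Pool.Agent.Lib.MP_1ad228_ntBr.TSD

/-!
# MP_1ad228_nt: zero-cycles of degree one on the quadratic twists of a fixed curve of genus `n ≥ 1`

The curves `D w² = q_0(x, z) q_1(x, z) ... q_n(x, z)`, the `q_i` binary quadratic forms with integer coefficients.
-/

set_option autoImplicit false

open ZG ZS

/-- Let `n ≥ 1` and let `q_0, ..., q_n` be binary quadratic forms with integer coefficients.  Suppose that no product of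
the discriminants of a nonempty set of these forms is a square, that at most `n` of the resultants of two of the forms
are not squares and, if `n = 1`, that the product of the resultant and the two discriminants is not a square.

(1) The number of squarefree `D`, `|D| ≤ N`, such that the curve `D w² = q_0 ... q_n` of genus `n` has zero-cycles of
degree one over `ℝ` and all `ℚ_p` which are orthogonal to the Brauer classes `(q_i, b)`, `b ∈ ℚ*`, or a zero-cycle of
degree one over `ℚ`, is at most `C N / (log N) ^ (1.0005 u)`, `u = 2 ^ (-(n + 1))`.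

(2) For at least `c N / (log N) ^ u` squarefree `D`, `|D| ≤ N`, the curve has points over `ℝ` and all `ℚ_p`, for all large `N`.

(3) For `D ≠ 0` the classes `(q_i, b)` belong to the Brauer group of the curve, and their values at the points `P` are `(P.val i, b)`.

(4) For `n = 2` the curves `D w² = q_0 q_1 q_2` as above which have points over `ℝ` and all `ℚ_p` but no zero-cycles as in (1) are Zariski dense among all
curves `y² = f(x, z)` of genus two. -/
theorem Pool.Agent.Results.MP_1ad228_nt.EveryGenusTwists.result :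
    (∀ (n : ℕ), 1 ≤ n → ∀ (q : Fin (n + 1) → BQ),
      (∀ A : Finset (Fin (n + 1)), A.Nonempty → ¬ IsSquare (∏ i ∈ A, (q i).disc)) →
      (Ed q).card ≤ n →
      (n = 1 → ¬ IsSquare ((q 0).res (q 1) * ((q 0).disc * (q 1).disc))) →
      (∃ C : ℝ, ∀ N : ℕ, 2 ≤ N →
        (Nat.card {D : ℤ // Squarefree D ∧ |D| ≤ (N : ℤ) ∧ (Adelic q D ∨ Global q D)} : ℝ) ≤
          C * N / Real.log N ^ ((1 + 1 / 2000) * (1 / 2) ^ (n + 1) : ℝ)) ∧
      (∃ (c : ℝ) (N0 : ℕ), 0 < c ∧ ∀ N : ℕ, N0 ≤ N →
        c * N / Real.log N ^ ((1 / 2) ^ (n + 1) : ℝ) ≤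
          (Nat.card {D : ℤ // Squarefree D ∧ |D| ≤ (N : ℤ) ∧ ZS.ELS q D} : ℝ)) ∧
      ∀ D : ℤ, D ≠ 0 → ZS.InBr q D) ∧
    ZS.IsDense := by
  refine ⟨?_, isDense⟩
  intro n hn q hind hres h1
  suffices hG : Gen q from ⟨(finalS hG).1, (finalS hG).2 (exists_ELS hG.A), fun D hD => ZS.inBr hG.res hD⟩
  refine ⟨by omega, hind, by omega, ?_⟩
  intro hk i j hij
  obtain rfl : n = 1 := by omega
  have h := h1 rfl
  have h' : ¬ IsSquare ((q 1).res (q 0) * ((q 1).disc * (q 0).disc)) := by
    rw [BQ.res_comm (q 1) (q 0), mul_comm (q 1).disc (q 0).disc]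
    exact h
  fin_cases i <;> fin_cases j
  · exact absurd rfl hij
  · exact h
  · exact h'
  · exact absurd rfl hij
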