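import Pool.Agent.Lib.MP_1ad228_ntH.HDefs
import Pool.Agent.Lib.MP_1ad228_ntH.PH
import Pool.Agent.Lib.MP_1ad228_ntBr.H
import Pool.Agent.Lib.MP_1ad228_ntBr.HDM

/-!
# MP_1ad228_nt: zero-cycles of degree one on the hyperelliptic curves `y² = v(x, z) w(G₁(x, z), G₂(x, z))` of genus `g`

`v`, `w` run over the integral binary quadratic forms with coefficients at most `N`, and `G₁`, `G₂` over the integral binary forms of
degree `g` with coefficients at most `N ^ K` (`HNF.InBox (N ^ K) N q`, `q = ((v, w), (G₁, G₂))`).
`HNF.Adelic q`: there are zero-cycles of degree one on the curve over all completions of `ℚ`, orthogonal to the Brauer classes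
`(v, β)`, `β ∈ ℚ*`.  `HNF.Global q`: there is a zero-cycle of degree one over `ℚ`.
`HNF.Smooth q`: the form `v w(G₁, G₂)` has degree `2 g + 2` and no multiple factor, so that the curve is smooth of genus `g`.
`HNF.IsDense g`: the smooth members with points everywhere locally which are neither `Adelic` nor `Global` are Zariski dense among all curves `y² = f(x, z)`, `f` of
degree `2 g + 2`.
`HNF.InBr q`: the classes `(v, β)`, `β ∈ ℚ*`, belong to the Brauer group of the curve, and their values at the points `P` are `(P.val, β)`.
-/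

namespace Pool.Agent.Results.MP_1ad228_nt.EveryGenusZeroCycles

open HNF

/-- For every `g ≥ 1`, in a family which is dense in the moduli space of hyperelliptic curves of genus `g`:
(1) for 100 percent of the members there is no adelic zero-cycle of degree one orthogonal to the classes `(v, β)`, and no
zero-cycle of degree one over `ℚ`;
(2) a positive proportion of the members are smooth curves of genus `g` with points over `ℝ` and over all `ℚ_p`;
(3) the classes `(v, β)` belong to the Brauer group of each smooth member;
(4) the smooth members with points over `ℝ` and over all `ℚ_p`, but without adelic or global zero-cycle as in (1), are Zariski dense among all hyperelliptic curves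
of genus `g`. -/
theorem result (g K : ℕ) (hg : 1 ≤ g) (hK : g + 9 ≤ 2 * K) :
    (∃ C : ℝ, ∀ N : ℕ, 16 ≤ N →
      (Nat.card {q : Dt g // InBox (N ^ K) N q ∧ (Adelic q ∨ Global q)} : ℝ) ≤
        C * (N : ℝ) ^ (2 * K * (g + 1) + 6) / Real.log (Real.log N)) ∧
    (∃ c : ℝ, 0 < c ∧ ∃ N₀ : ℕ, ∀ N : ℕ, N₀ ≤ N →
      c * (N : ℝ) ^ (2 * K * (g + 1) + 6) ≤
        (Nat.card {q : Dt g // InBox (N ^ K) N q ∧ Smooth q ∧ HasPoint ℝ q ∧
          ∀ (p : ℕ) [Fact p.Prime], HasPoint ℚ_[p] q} : ℝ)) ∧
    (∀ q : Dt g, Smooth q → InBr q) ∧ IsDense g :=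
  ⟨(part1_H g K hg (by omega)).imp fun _ h => h.2, part2_H g K hg hK, fun _ hq => inBr hq, isDense hg⟩

end Pool.Agent.Results.MP_1ad228_nt.EveryGenusZeroCycles
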