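import Pool.Agent.Lib.MP_1ad228_ntN.Main
import Pool.Agent.Lib.MP_1ad228_ntU.U_Fun
import Pool.Agent.Lib.MP_1ad228_ntU.U_Num

/-!
# MP_1ad228_nt: over every global field almost all everywhere locally soluble smooth Fano complete intersections of dimension at least 2 have a rational point

`GlobalField K t`: `K` is a number field and `t > 1` an integer, or `K` is a finite separable extension of the field of rational functions in the variable `t` over a finite field.
`Box t c`: the set of all `z` in `K` with `|z| ≤ max (1, |t|) ^ c` for all absolute values of `K`.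
For a number field these are the algebraic integers all of whose conjugates are at most `t ^ c`; for a function field the elements `z` integral over `F[t]` with `z / t ^ c` integral over
the valuation ring of `F(t)` at infinity.
`FormsIn L n d`: the forms of degree `d` in `n + 1` variables over `K` with all coefficients in the set `L`.
`SmoothCI f`: the forms `f k` define a smooth complete intersection.  `LocSol f`: they have a common nonzero zero over the completion of `K` at every nontrivial absolute value.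
`ZeroIn L f`: the `f k` have a common nonzero zero with coordinates in the set `L`.

The hypotheses say: codimension `r ≥ 1`, dimension `n - r ≥ 2`, degrees at least 2, and `∑ d ≤ n` (Fano).
-/

namespace Pool.Agent.Results.MP_1ad228_nt.FanoGlobalFields

open Pool.Agent.Lib.MP_1ad228_ntU

theorem result (K : Type) [Field K] (t : K) (hK : GlobalField K t) (r n : ℕ) (hr : 1 ≤ r)
    (hn : r + 2 ≤ n) (d : Fin r → ℕ) (hd : ∀ k, 2 ≤ d k) (hD : ∑ k, d k ≤ n) :
    (∀ c, (Box t c).Finite) ∧
    (∀ ε : ℝ, 0 < ε → ∃ M a₀ : ℕ, ∀ a : ℕ, a₀ ≤ a →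
      (({f | (∀ k, f k ∈ FormsIn (Box t a) n (d k)) ∧ LocSol f ∧
          ¬ ∃ b : ℕ, b * (n + 1 - ∑ k, d k) ≤ r * a + M ∧ ZeroIn (Box t b) f} :
        Set (Fin r → MvPolynomial (Fin (n + 1)) K)).ncard : ℝ) ≤
      ε * (({f | (∀ k, f k ∈ FormsIn (Box t a) n (d k)) ∧ SmoothCI f ∧ LocSol f} :
        Set (Fin r → MvPolynomial (Fin (n + 1)) K)).ncard : ℝ)) ∧
    (∃ δ : ℝ, 0 < δ ∧ ∃ a₀ : ℕ, ∀ a : ℕ, a₀ ≤ a →
      δ * (({f | ∀ k, f k ∈ FormsIn (Box t a) n (d k)} :
        Set (Fin r → MvPolynomial (Fin (n + 1)) K)).ncard : ℝ) ≤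
      (({f | (∀ k, f k ∈ FormsIn (Box t a) n (d k)) ∧ SmoothCI f ∧ LocSol f} :
        Set (Fin r → MvPolynomial (Fin (n + 1)) K)).ncard : ℝ)) := by
  rcases hK with ⟨hNF, N, hN, rfl⟩ | ⟨F, _, _, hfin, hfd, hsep, ht⟩
  · exact uNum K N hN n d hD
      (Pool.Agent.Lib.MP_1ad228_ntN.nonSm K n d fun k => le_trans one_le_two (hd k))
      (Pool.Agent.Lib.MP_1ad228_ntN.mainFano K hr n hn d hd hD)
      (Pool.Agent.Lib.MP_1ad228_ntN.posFano K hr n hn d hd hD)
  · letI : Algebra (Polynomial F) K :=
      ((algebraMap (RatFunc F) K).comp (algebraMap (Polynomial F) (RatFunc F))).toAlgebra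
    haveI : IsScalarTower (Polynomial F) (RatFunc F) K := IsScalarTower.of_algebraMap_eq' rfl
    exact uFun F K n hr hn d hd hD t ht

end Pool.Agent.Results.MP_1ad228_nt.FanoGlobalFields
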